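import Pool.Agent.helper73.ASU.Spec

set_option autoImplicit false

namespace Pool.Agent.ASU

open Finset

theorem PVD_form (D : ℤ) (hD : D ≠ 0) (hsq : ¬ IsSquare D) :
    ∃ (s : ℤ) (d m : ℕ), (s = 1 ∨ s = -1 ∨ s = 2 ∨ s = -2) ∧ Odd d ∧ Squarefree d ∧ 1 ≤ d ∧ 1 ≤ m ∧
      D = s * d * m ^ 2 ∧ (d = 1 → s ≠ 1) ∧ d ≤ D.natAbs ∧ m ^ 2 ≤ D.natAbs := by
  obtain ⟨a, b, hab, ha⟩ := Nat.sq_mul_squarefree D.natAbs
  have hn : D.natAbs ≠ 0 := Int.natAbs_ne_zero.mpr hD
  have hb : 1 ≤ b := by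
    rcases Nat.eq_zero_or_pos b with h | h
    · rw [h] at hab
      exact absurd (by rw [← hab]; ring) hn
    · exact h
  have ha0 : 1 ≤ a := by
    rcases Nat.eq_zero_or_pos a with h | h
    · rw [h] at hab
      exact absurd (by rw [← hab]; ring) hn
    · exact h
  have hb2 : b ^ 2 ≤ D.natAbs := by
    rw [← hab]
    exact Nat.le_mul_of_pos_right _ ha0
  have haD : a ≤ D.natAbs := by
    rw [← hab]
    exact Nat.le_mul_of_pos_left _ (by positivity)
  -- the sign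
  obtain ⟨σ, hσ, hDσ⟩ : ∃ σ : ℤ, (σ = 1 ∨ σ = -1) ∧ D = σ * D.natAbs := by
    rcases Int.natAbs_eq D with h | h
    · exact ⟨1, Or.inl rfl, by rw [one_mul]; exact h⟩
    · exact ⟨-1, Or.inr rfl, by rw [neg_one_mul]; exact h⟩
  rcases Nat.even_or_odd a with he | ho
  · obtain ⟨d, hd⟩ := he
    have hd2 : a = 2 * d := by omega
    have hdodd : Odd d := by
      rcases Nat.even_or_odd d with h | h
      · exfalso
        obtain ⟨e, he⟩ := h
        have h4 : 2 * 2 ∣ a := ⟨e, by omega⟩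
        have := ha 2 h4
        rw [Nat.isUnit_iff] at this
        omega
      · exact h
    have hdsq : Squarefree d := Squarefree.squarefree_of_dvd ⟨2, by omega⟩ ha
    refine ⟨2 * σ, d, b, ?_, hdodd, hdsq, by omega, hb, ?_, ?_, by omega, hb2⟩
    · rcases hσ with h | h
      · rw [h]; norm_num
      · rw [h]; norm_num
    · have : (D.natAbs : ℤ) = (b : ℤ) ^ 2 * (2 * d) := by
        rw [← hab, hd2]
        push_cast
        ring
      rw [hDσ, this]
      ring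
    · intro _ h
      rcases hσ with h' | h' <;> rw [h'] at h <;> omega
  · refine ⟨σ, a, b, ?_, ho, ha, ha0, hb, ?_, ?_, haD, hb2⟩
    · rcases hσ with h | h
      · exact Or.inl h
      · exact Or.inr (Or.inl h)
    · have : (D.natAbs : ℤ) = (b : ℤ) ^ 2 * a := by
        rw [← hab]
        push_cast
        ring
      rw [hDσ, this]
      ring
    · intro h1 h2
      apply hsq
      have : (D.natAbs : ℤ) = (b : ℤ) ^ 2 * a := by
        rw [← hab]
        push_cast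
        ring
      rw [hDσ, this, h1, h2]
      exact ⟨b, by push_cast; ring⟩

theorem PVD (hA : PVA8_stmt) (hB : PVB8_stmt) : PVD_stmt := by
  intro ε hε
  obtain ⟨C, hC1, hC⟩ := Pool.Agent.helper47.RA.card_divisors_le ε hε
  refine ⟨8 * C * (1 + 2 / ε), by positivity, ?_⟩
  intro D hD hsq X
  obtain ⟨s, d, m, hs, hdodd, hdsq, hd1, hm1, hDf, hs1, hdD, hmD⟩ := PVD_form D hD hsq
  have hDabs : |(D : ℝ)| = (D.natAbs : ℝ) := by
    rw [Nat.cast_natAbs, Int.cast_abs]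
  set Q : ℝ := |(D : ℝ)| with hQ
  have hQ1 : 1 ≤ Q := by
    rw [hDabs]
    have := Int.natAbs_pos.mpr hD
    exact_mod_cast this
  have hQ0 : 0 < Q := by linarith
  have hτ : (m.divisors.card : ℝ) ≤ C * Q ^ (ε / 2) := by
    refine (hC m hm1).trans (mul_le_mul_of_nonneg_left ?_ (by linarith))
    have h1 : (m : ℝ) ^ ε = ((m : ℝ) ^ (2 : ℕ)) ^ (ε / 2) := by
      rw [← Real.rpow_natCast_mul (by positivity)]
      congr 1
      push_cast
      ring
    rw [h1]
    refine Real.rpow_le_rpow (by positivity) ?_ (by positivity)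
    rw [hDabs]
    exact_mod_cast hmD
  have hε2 : 0 < 2 / ε := by positivity
  have hE1 : (1 : ℝ) ≤ Q ^ (ε / 2) := Real.one_le_rpow hQ1 (by positivity)
  rcases Nat.lt_or_ge d 2 with h | h
  · have hd : d = 1 := by omega
    have h1 := hB m s (by
      rcases hs with h | h | h | h
      · exact absurd h (hs1 hd)
      · exact Or.inl h
      · exact Or.inr (Or.inl h)
      · exact Or.inr (Or.inr h)) hm1 X
    have h2 : s * (m : ℤ) ^ 2 = D := by
      rw [hDf, hd]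
      push_cast
      ring
    rw [h2] at h1
    have h3 : |((JS D X : ℤ) : ℝ)| ≤ 8 * (m.divisors.card : ℝ) := by
      have : ((|JS D X| : ℤ) : ℝ) ≤ ((8 * (m.divisors.card : ℤ) : ℤ) : ℝ) := by exact_mod_cast h1
      push_cast at this
      exact this
    calc |((JS D X : ℤ) : ℝ)| ≤ 8 * (m.divisors.card : ℝ) := h3
      _ ≤ 8 * (C * Q ^ (ε / 2)) := mul_le_mul_of_nonneg_left hτ (by norm_num)
      _ = 8 * C * 1 * Q ^ (ε / 2) := by ring
      _ ≤ 8 * C * (1 + 2 / ε) * Q ^ (1 / 2 + ε) := by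
          refine mul_le_mul (mul_le_mul_of_nonneg_left (by linarith) (by linarith)) ?_ (by positivity) (by positivity)
          exact Real.rpow_le_rpow_of_exponent_le hQ1 (by linarith)
  · have h1 := hA d m s hs hdodd hdsq h hm1 X
    rw [← hDf] at h1
    have hd0 : (0 : ℝ) ≤ d := Nat.cast_nonneg d
    have hdQ : (d : ℝ) ≤ Q := by
      rw [hDabs]
      exact_mod_cast hdD
    have h2 : √(d : ℝ) ≤ Q ^ (1 / 2 : ℝ) := by
      rw [Real.sqrt_eq_rpow]
      exact Real.rpow_le_rpow hd0 hdQ (by norm_num)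
    have h3 : 1 + Real.log d ≤ (1 + 2 / ε) * Q ^ (ε / 2) := by
      have h4 : Real.log d ≤ (d : ℝ) ^ (ε / 2) / (ε / 2) := Real.log_le_rpow_div hd0 (by positivity)
      have h5 : (d : ℝ) ^ (ε / 2) ≤ Q ^ (ε / 2) := Real.rpow_le_rpow hd0 hdQ (by positivity)
      have h6 : (d : ℝ) ^ (ε / 2) / (ε / 2) = 2 / ε * (d : ℝ) ^ (ε / 2) := by
        field_simp
      have h7 : 2 / ε * (d : ℝ) ^ (ε / 2) ≤ 2 / ε * Q ^ (ε / 2) := mul_le_mul_of_nonneg_left h5 hε2.le
      rw [add_mul, one_mul]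
      linarith
    have h0 : 0 ≤ 1 + Real.log d := by
      have : 0 ≤ Real.log d := Real.log_nonneg (by exact_mod_cast hd1)
      linarith
    have h8 : √(d : ℝ) * (1 + Real.log d) ≤ Q ^ (1 / 2 : ℝ) * ((1 + 2 / ε) * Q ^ (ε / 2)) :=
      mul_le_mul h2 h3 h0 (by positivity)
    have h9 : Q ^ (ε / 2) * (Q ^ (1 / 2 : ℝ) * Q ^ (ε / 2)) = Q ^ (1 / 2 + ε) := by
      rw [← Real.rpow_add hQ0, ← Real.rpow_add hQ0]
      congr 1
      ring
    calc |((JS D X : ℤ) : ℝ)| ≤ 4 * (m.divisors.card : ℝ) * (√(d : ℝ) * (1 + Real.log d)) := h1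
      _ ≤ 4 * (C * Q ^ (ε / 2)) * (Q ^ (1 / 2 : ℝ) * ((1 + 2 / ε) * Q ^ (ε / 2))) :=
          mul_le_mul (mul_le_mul_of_nonneg_left hτ (by norm_num)) h8 (by positivity) (by positivity)
      _ = 4 * C * (1 + 2 / ε) * (Q ^ (ε / 2) * (Q ^ (1 / 2 : ℝ) * Q ^ (ε / 2))) := by ring
      _ = 4 * C * (1 + 2 / ε) * Q ^ (1 / 2 + ε) := by rw [h9]
      _ ≤ 8 * C * (1 + 2 / ε) * Q ^ (1 / 2 + ε) := by
          have : 0 ≤ C * (1 + 2 / ε) * Q ^ (1 / 2 + ε) := by positivity
          nlinarith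

end Pool.Agent.ASU
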